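import Pool.Agent.H.MP_e349a0_al.Main

set_option autoImplicit false
open scoped Pointwise

universe u

theorem Pool.Agent.Results.MP_e349a0_al.AlephOne.result (G : Type u) [Group G] [Infinite G] :
    ∃ P : Set (Set G), Setoid.IsPartition P ∧ Cardinal.mk P = Cardinal.mk G ∧
      ∀ A ∈ P, (∃ F : Set G, Cardinal.mk F < Cardinal.aleph 1 ∧ F * A = Set.univ) ∧
        (∃ F : Set G, Cardinal.mk F < Cardinal.aleph 1 ∧ A * F = Set.univ) :=
  Pool.Agent.H.MP_e349a0_al.main
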